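import Mathlib
import Pool.Agent.Q40.CK.Bin

namespace Pool.Agent.Results.MP_06821b_nt.Full

open PowerSeries Pool.Agent.Q35

/-- `b m n`, the number of binary partitions of `n` with parts in `m` colors: the coefficient of
`x^n` in the `m`-th power of the product over `i` of `1/(1 - x^(2^i))`; the factors with `i > n` do
not influence this coefficient, and `1/(1-x^d)` is written as the series with coefficient `1` at the
multiples of `d` and `0` elsewhere. -/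
noncomputable def b (m n : ℕ) : ℕ :=
  coeff n ((∏ i ∈ Finset.range (n + 1), mk fun j => if 2 ^ i ∣ j then (1 : ℕ) else 0) ^ m)

theorem cast_b (m n : ℕ) (f : PowerSeries ℤ) (hf : f = U ^ m * E 2 f)
    (h0 : coeff 0 f = 1) : ((b m n : ℕ) : ℤ) = coeff n f := by
  have h := cast_coeff (R := ℤ) 2 0 m n (n + 1)
  simp only [pow_zero, one_mul] at h
  rw [b, h]
  have h2 := coeff_geo_prod (R := ℤ) (b := 2) le_rfl m f hf h0 n (n + 1) (Nat.lt_succ_self n) 1
  rwa [one_mul, one_mul] at h2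

theorem consecutive (m n k : ℕ) (hm : 1 ≤ m) (hk : m + 2 ≤ k) :
    (b (2 ^ m) (2 ^ k * n) : ℤ) ≡ b (2 ^ m) (2 ^ (k - 1) * n) [ZMOD 2 ^ k] := by
  obtain ⟨f, hf, h0⟩ := exists_func (R := ℤ) (b := 2) le_rfl (U ^ (2 ^ m)) (by
    rw [coeff_zero_eq_constantCoeff_apply, map_pow, ← coeff_zero_eq_constantCoeff_apply,
      coeff_zero_U, one_pow])
  rw [cast_b (2 ^ m) _ f hf h0, cast_b (2 ^ m) _ f hf h0]
  exact (Int.modEq_iff_dvd.mpr (Pool.Agent.Q40.CK.Bin.main m hm f hf k n hk)).symm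

/-- For `m ≥ 1`, `k ≥ m + 2` and all `n`: `b_{2^m}(2^(k+1) n) ≡ b_{2^m}(2^(k-1) n) mod 2^k`; more
precisely even `b_{2^m}(2^k n) ≡ b_{2^m}(2^(k-1) n) mod 2^k`. -/
theorem result : ∀ m n k : ℕ, 1 ≤ m → m + 2 ≤ k →
    b (2 ^ m) (2 ^ (k + 1) * n) ≡ b (2 ^ m) (2 ^ (k - 1) * n) [MOD 2 ^ k] ∧
    b (2 ^ m) (2 ^ k * n) ≡ b (2 ^ m) (2 ^ (k - 1) * n) [MOD 2 ^ k] := by
  intro m n k hm hk
  have h1 := consecutive m n k hm hk
  have h2 := consecutive m n (k + 1) hm (by omega)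
  rw [Nat.add_sub_cancel] at h2
  have h3 : (b (2 ^ m) (2 ^ (k + 1) * n) : ℤ) ≡ b (2 ^ m) (2 ^ k * n) [ZMOD 2 ^ k] :=
    h2.of_dvd (pow_dvd_pow 2 (Nat.le_succ k))
  have h4 := h3.trans h1
  constructor
  · rw [← Int.natCast_modEq_iff]
    exact_mod_cast h4
  · rw [← Int.natCast_modEq_iff]
    exact_mod_cast h1

end Pool.Agent.Results.MP_06821b_nt.Full
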